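import Mathlib

/-!
Truncated power series over `ZMod (5^15)` packed into natural numbers (base `2^128` digits,
`3126` of them), with kernel-friendly arithmetic.
-/

namespace Pool.Agent.Helper13.ASD

open Finset

/-- Sum of `f` over `[s, s + 2^k)`, by bisection. -/
def sumB (f : ℕ → ℕ) : ℕ → ℕ → ℕ
  | 0, s => f s
  | k + 1, s => sumB f k s + sumB f k (s + 2 ^ k)

/-- The `n`-th base `2^128` digit. -/
def dig (x n : ℕ) : ℕ := (x >>> (128 * n)) % 2 ^ 128

/-- Reduce the first `3126` digits modulo `5^15` and drop the others. -/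
def red (x : ℕ) : ℕ :=
  sumB (fun n => if n < 3126 then (dig x n % 5 ^ 15) * 2 ^ (128 * n) else 0) 12 0

/-- Base `2^35` digits to base `2^128` digits. -/
def unpack (P : ℕ) : ℕ :=
  sumB (fun n => if n < 3126 then ((P >>> (35 * n)) % 2 ^ 35) * 2 ^ (128 * n) else 0) 12 0

/-- The packed series `∑ σ_k(n) q^n`. -/
def lamb (k : ℕ) : ℕ :=
  sumB (fun d => if d = 0 then 0 else d ^ k *
    sumB (fun m => if m = 0 then 0 else if m * d < 3126 then 2 ^ (128 * (m * d)) else 0)
      (Nat.log2 (3126 / d) + 1) 0) 12 0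

theorem sumB_eq (f : ℕ → ℕ) (k s : ℕ) : sumB f k s = ∑ i ∈ range (2 ^ k), f (s + i) := by
  induction k generalizing s with
  | zero => simp [sumB]
  | succ k ih =>
    rw [sumB, ih, ih, pow_succ, mul_two, Finset.sum_range_add]
    simp [add_assoc]

/-- The value of a digit function. -/
def valN (f : ℕ → ℕ) : ℕ := ∑ n ∈ range 3126, f n * 2 ^ (128 * n)

theorem digit_gen (B : ℕ) (hB : 0 < B) (K : ℕ) : ∀ (f : ℕ → ℕ), (∀ i < K, f i < B) → ∀ n < K,
    (∑ i ∈ range K, f i * B ^ i) / B ^ n % B = f n := by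
  induction K with
  | zero => intro f _ n hn; omega
  | succ K ih =>
    intro f hf n hn
    have hsplit : ∑ i ∈ range (K + 1), f i * B ^ i
        = f 0 + B * ∑ i ∈ range K, f (i + 1) * B ^ i := by
      rw [Finset.sum_range_succ', Finset.mul_sum, add_comm]
      congr 1
      · simp
      · apply Finset.sum_congr rfl
        intro i _
        rw [pow_succ]
        ring
    rw [hsplit]
    rcases n with _ | n
    · rw [pow_zero, Nat.div_one, Nat.add_mul_mod_self_left, Nat.mod_eq_of_lt (hf 0 (by omega))]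
    · rw [pow_succ', ← Nat.div_div_eq_div_mul, Nat.add_mul_div_left _ _ hB,
        Nat.div_eq_of_lt (hf 0 (by omega)), zero_add]
      exact ih (fun i => f (i + 1)) (fun i hi => hf (i + 1) (by omega)) n (by omega)

theorem digit_aux (f : ℕ → ℕ) (hf : ∀ i < 3126, f i < 2 ^ 128) (n : ℕ) (hn : n < 3126) :
    valN f / (2 ^ 128) ^ n % 2 ^ 128 = f n := by
  have h := digit_gen (2 ^ 128) (by positivity) 3126 f hf n hn
  rw [← h, valN]
  simp only [pow_mul]

theorem dig_eq (x : ℕ) (f : ℕ → ℕ) (hx : x ≡ valN f [MOD (2 ^ 128) ^ 3126])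
    (hf : ∀ n < 3126, f n < 2 ^ 128) (n : ℕ) (hn : n < 3126) : dig x n = f n := by
  have h1 := digit_aux f hf n hn
  rw [← h1, dig, Nat.shiftRight_eq_div_pow, pow_mul, ← Nat.mod_mul_right_div_self,
    ← Nat.mod_mul_right_div_self]
  have h2 : (2 ^ 128) ^ n * 2 ^ 128 ∣ (2 ^ 128) ^ 3126 := by
    rw [← pow_succ]
    exact pow_dvd_pow _ hn
  have h3 : x % ((2 ^ 128) ^ n * 2 ^ 128) = valN f % ((2 ^ 128) ^ n * 2 ^ 128) := hx.of_dvd h2
  rw [h3]

/-- `x` packs the first `3126` coefficients of `F`, with digits below `b`. -/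
def Pre (x : ℕ) (F : PowerSeries (ZMod (5 ^ 15))) (b : ℕ) : Prop :=
  ∃ f : ℕ → ℕ, x ≡ valN f [MOD (2 ^ 128) ^ 3126] ∧ (∀ n < 3126, f n < b) ∧
    ∀ n < 3126, (f n : ZMod (5 ^ 15)) = PowerSeries.coeff n F

theorem Pre.dig {x : ℕ} {F : PowerSeries (ZMod (5 ^ 15))} {b : ℕ} (h : Pre x F b)
    (hb : b ≤ 2 ^ 128) (n : ℕ) (hn : n < 3126) :
    ((ASD.dig x n : ℕ) : ZMod (5 ^ 15)) = PowerSeries.coeff n F := by
  obtain ⟨f, hx, hf, hc⟩ := h
  rw [dig_eq x f hx (fun n hn => (hf n hn).trans_le hb) n hn, hc n hn]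

theorem Pre.mono {x : ℕ} {F : PowerSeries (ZMod (5 ^ 15))} {b b' : ℕ} (h : Pre x F b)
    (hb : b ≤ b') : Pre x F b' := by
  obtain ⟨f, hx, hf, hc⟩ := h
  exact ⟨f, hx, fun n hn => (hf n hn).trans_le hb, hc⟩

theorem sum_filter_4096 (g : ℕ → ℕ) :
    sumB (fun n => if n < 3126 then g n else 0) 12 0 = ∑ n ∈ range 3126, g n := by
  rw [sumB_eq]
  simp only [zero_add]
  rw [← Finset.sum_filter]
  apply Finset.sum_congr
  · ext n
    simp only [Finset.mem_filter, Finset.mem_range]
    constructor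
    · exact fun h => h.2
    · intro h
      exact ⟨lt_of_lt_of_le h (by norm_num), h⟩
  · intros; rfl

theorem Pre.red {x : ℕ} {F : PowerSeries (ZMod (5 ^ 15))} {b : ℕ} (h : Pre x F b)
    (hb : b ≤ 2 ^ 128) : Pre (ASD.red x) F (5 ^ 15) := by
  refine ⟨fun n => ASD.dig x n % 5 ^ 15, ?_, ?_, ?_⟩
  · have : ASD.red x = valN (fun n => ASD.dig x n % 5 ^ 15) := by
      rw [ASD.red, sum_filter_4096, valN]
    rw [this]
  · intro n _
    exact Nat.mod_lt _ (by positivity)
  · intro n hn
    rw [← h.dig hb n hn]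
    exact ZMod.natCast_mod _ _

theorem valN_mul (f g : ℕ → ℕ) :
    valN f * valN g ≡ valN (fun n => ∑ p ∈ antidiagonal n, f p.1 * g p.2)
      [MOD (2 ^ 128) ^ 3126] := by
  have e1 : ∀ f : ℕ → ℕ, valN f = Polynomial.eval (2 ^ 128)
      (∑ n ∈ range 3126, Polynomial.monomial n (f n)) := by
    intro f
    rw [Polynomial.eval_finsetSum, valN]
    apply Finset.sum_congr rfl
    intro n _
    rw [Polynomial.eval_monomial, pow_mul]
  have hc : ∀ (f : ℕ → ℕ) (n : ℕ), n < 3126 →
      (∑ n ∈ range 3126, Polynomial.monomial n (f n)).coeff n = f n := by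
    intro f n hn
    rw [Polynomial.finsetSum_coeff]
    simp only [Polynomial.coeff_monomial]
    rw [Finset.sum_ite_eq' (range 3126) n f, if_pos (Finset.mem_range.mpr hn)]
  set P := ∑ n ∈ range 3126, Polynomial.monomial n (f n) with hP
  set Q := ∑ n ∈ range 3126, Polynomial.monomial n (g n) with hQ
  have h1 : valN f * valN g = Polynomial.eval (2 ^ 128) (P * Q) := by
    rw [e1, e1, Polynomial.eval_mul]
  rw [h1, Polynomial.eval_eq_sum_range' (n := max ((P * Q).natDegree + 1) 3126)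
    (lt_of_lt_of_le (Nat.lt_succ_self _) (le_max_left _ _))]
  set L := max ((P * Q).natDegree + 1) 3126 with hL
  have hsplit : ∑ i ∈ range L, (P * Q).coeff i * (2 ^ 128) ^ i
      = ∑ i ∈ range 3126, (P * Q).coeff i * (2 ^ 128) ^ i
        + ∑ i ∈ Finset.Ico 3126 L, (P * Q).coeff i * (2 ^ 128) ^ i := by
    rw [Finset.sum_range_add_sum_Ico _ (le_max_right _ _)]
  rw [hsplit]
  have h2 : (2 ^ 128) ^ 3126 ∣ ∑ i ∈ Finset.Ico 3126 L, (P * Q).coeff i * (2 ^ 128) ^ i := by
    apply Finset.dvd_sum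
    intro i hi
    apply Dvd.dvd.mul_left
    exact pow_dvd_pow _ (Finset.mem_Ico.mp hi).1
  have h3 : ∑ i ∈ range 3126, (P * Q).coeff i * (2 ^ 128) ^ i
      = valN (fun n => ∑ p ∈ antidiagonal n, f p.1 * g p.2) := by
    rw [valN]
    apply Finset.sum_congr rfl
    intro n hn
    have hsum : ∑ x ∈ antidiagonal n, P.coeff x.1 * Q.coeff x.2
        = ∑ p ∈ antidiagonal n, f p.1 * g p.2 := by
      apply Finset.sum_congr rfl
      intro p hp
      have := Finset.HasAntidiagonal.mem_antidiagonal.mp hp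
      have hn' := Finset.mem_range.mp hn
      rw [hc f p.1 (by omega), hc g p.2 (by omega)]
    rw [Polynomial.coeff_mul, hsum, pow_mul]
  rw [h3]
  have h4 := (Nat.modEq_zero_iff_dvd.mpr h2)
  exact (Nat.ModEq.add_left _ h4).trans (by rw [add_zero])

theorem Pre.mul {x y : ℕ} {F G : PowerSeries (ZMod (5 ^ 15))} {b c : ℕ} (hx : Pre x F b)
    (hy : Pre y G c) : Pre (x * y) (F * G) (3126 * (b * c)) := by
  obtain ⟨f, hxf, hf, hfc⟩ := hx
  obtain ⟨g, hyg, hg, hgc⟩ := hy
  refine ⟨fun n => ∑ p ∈ antidiagonal n, f p.1 * g p.2, ?_, ?_, ?_⟩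
  · exact (hxf.mul hyg).trans (valN_mul f g)
  · intro n hn
    have hb : 0 < b := lt_of_le_of_lt (Nat.zero_le _) (hf 0 (by norm_num))
    have hc : 0 < c := lt_of_le_of_lt (Nat.zero_le _) (hg 0 (by norm_num))
    have h1 : ∑ p ∈ antidiagonal n, f p.1 * g p.2 ≤ ∑ p ∈ antidiagonal n, (b * c - 1) := by
      apply Finset.sum_le_sum
      intro p hp
      have := Finset.HasAntidiagonal.mem_antidiagonal.mp hp
      have h2 := hf p.1 (by omega)
      have h3 := hg p.2 (by omega)
      have : f p.1 * g p.2 < b * c := Nat.mul_lt_mul'' h2 h3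
      omega
    rw [Finset.sum_const, Finset.Nat.card_antidiagonal, smul_eq_mul] at h1
    have hbc : 0 < b * c := Nat.mul_pos hb hc
    calc ∑ p ∈ antidiagonal n, f p.1 * g p.2 ≤ (n + 1) * (b * c - 1) := h1
      _ ≤ 3126 * (b * c - 1) := Nat.mul_le_mul_right _ hn
      _ < 3126 * (b * c) := by omega
  · intro n hn
    rw [PowerSeries.coeff_mul]
    push_cast
    apply Finset.sum_congr rfl
    intro p hp
    have := Finset.HasAntidiagonal.mem_antidiagonal.mp hp
    rw [hfc p.1 (by omega), hgc p.2 (by omega)]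

theorem valN_lin (a b : ℕ) (f g : ℕ → ℕ) :
    a * valN f + b * valN g = valN (fun n => a * f n + b * g n) := by
  simp only [valN, Finset.mul_sum, ← Finset.sum_add_distrib]
  apply Finset.sum_congr rfl
  intro n _
  ring

theorem Pre.lin {x y : ℕ} {F G : PowerSeries (ZMod (5 ^ 15))} {c d : ℕ} (a b : ℕ) (hx : Pre x F c)
    (hy : Pre y G d) :
    Pre (a * x + b * y) ((a : PowerSeries (ZMod (5 ^ 15))) * F + (b : PowerSeries (ZMod (5 ^ 15))) * G)
      (a * c + b * d + 1) := by
  obtain ⟨f, hxf, hf, hfc⟩ := hx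
  obtain ⟨g, hyg, hg, hgc⟩ := hy
  refine ⟨fun n => a * f n + b * g n, ?_, ?_, ?_⟩
  · rw [← valN_lin]
    exact (hxf.mul_left a).add (hyg.mul_left b)
  · intro n hn
    have h1 := Nat.mul_le_mul_left a (hf n hn).le
    have h2 := Nat.mul_le_mul_left b (hg n hn).le
    show a * f n + b * g n < a * c + b * d + 1
    omega
  · intro n hn
    rw [map_add, ← map_natCast (PowerSeries.C (R := ZMod (5 ^ 15))) a,
      ← map_natCast (PowerSeries.C (R := ZMod (5 ^ 15))) b,
      PowerSeries.coeff_C_mul, PowerSeries.coeff_C_mul, ← hfc n hn, ← hgc n hn]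
    push_cast
    ring

theorem Pre.one : Pre 1 1 2 := by
  refine ⟨fun n => if n = 0 then 1 else 0, ?_, ?_, ?_⟩
  · have : valN (fun n => if n = 0 then 1 else 0) = 1 := by
      rw [valN]
      simp only [ite_mul, one_mul, zero_mul]
      rw [Finset.sum_ite_eq' (range 3126) 0, if_pos (Finset.mem_range.mpr (by norm_num))]
      simp
    rw [this]
  · intro n _
    show (if n = 0 then 1 else 0) < 2
    split_ifs <;> norm_num
  · intro n _
    rw [PowerSeries.coeff_one]
    by_cases h : n = 0 <;> simp [h]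

theorem Pre.unpack (P : ℕ) : Pre (ASD.unpack P)
    (PowerSeries.mk fun n => (((P >>> (35 * n)) % 2 ^ 35 : ℕ) : ZMod (5 ^ 15))) (2 ^ 35) := by
  refine ⟨fun n => (P >>> (35 * n)) % 2 ^ 35, ?_, ?_, ?_⟩
  · have : ASD.unpack P = valN (fun n => (P >>> (35 * n)) % 2 ^ 35) := by
      rw [ASD.unpack, sum_filter_4096, valN]
    rw [this]
  · intro n _
    exact Nat.mod_lt _ (by positivity)
  · intro n _
    rw [PowerSeries.coeff_mk]

theorem lamb_eq (k : ℕ) : lamb k = valN (fun n => ArithmeticFunction.sigma k n) := by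
  rw [lamb, sumB_eq, valN]
  simp only [zero_add, sumB_eq]
  -- the right side as a double sum
  have hR : ∀ n ∈ range 3126, ArithmeticFunction.sigma k n * 2 ^ (128 * n)
      = ∑ d ∈ range (2 ^ 12), ∑ m ∈ range (2 ^ 12),
        if d ≠ 0 ∧ m ≠ 0 ∧ m * d = n then d ^ k * 2 ^ (128 * (m * d)) else 0 := by
    intro n hn
    have hn' := Finset.mem_range.mp hn
    rw [ArithmeticFunction.sigma_apply, Finset.sum_mul]
    have hsub : n.divisors ⊆ range (2 ^ 12) := by
      intro d hd
      have := Nat.divisor_le hd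
      rw [Finset.mem_range]
      omega
    rw [← Finset.sum_subset hsub]
    · apply Finset.sum_congr rfl
      intro d hd
      have hdn := Nat.dvd_of_mem_divisors hd
      have hn0 : n ≠ 0 := (Nat.mem_divisors.mp hd).2
      have hd0 : d ≠ 0 := by rintro rfl; exact hn0 (zero_dvd_iff.mp hdn)
      have hq : n / d * d = n := Nat.div_mul_cancel hdn
      rw [Finset.sum_eq_single (n / d)]
      · have hq0 : n / d ≠ 0 := by
          intro h; rw [h, zero_mul] at hq; exact hn0 hq.symm
        rw [if_pos ⟨hd0, hq0, hq⟩, hq]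
      · intro m _ hm
        rw [if_neg]
        rintro ⟨_, _, h⟩
        apply hm
        rw [← h, Nat.mul_div_cancel _ (Nat.pos_of_ne_zero hd0)]
      · intro h
        exfalso
        apply h
        rw [Finset.mem_range]
        have : n / d ≤ n := Nat.div_le_self _ _
        omega
    · intro d _ hd
      apply Finset.sum_eq_zero
      intro m _
      rw [if_neg]
      rintro ⟨hd0, hm0, h⟩
      apply hd
      rw [Nat.mem_divisors]
      refine ⟨⟨m, by rw [← h, mul_comm]⟩, ?_⟩
      rw [← h]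
      exact Nat.mul_ne_zero hm0 hd0
  rw [Finset.sum_congr rfl hR, Finset.sum_comm]
  apply Finset.sum_congr rfl
  intro d hd
  rw [Finset.sum_comm]
  by_cases hd0 : d = 0
  · simp [hd0]
  · rw [if_neg hd0, Finset.mul_sum]
    have hstep : ∀ m ∈ range (2 ^ 12), ∑ n ∈ range 3126,
        (if d ≠ 0 ∧ m ≠ 0 ∧ m * d = n then d ^ k * 2 ^ (128 * (m * d)) else 0)
        = if m ≠ 0 ∧ m * d < 3126 then d ^ k * 2 ^ (128 * (m * d)) else 0 := by
      intro m _
      by_cases h : m ≠ 0 ∧ m * d < 3126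
      · rw [if_pos h, Finset.sum_eq_single (m * d)]
        · rw [if_pos ⟨hd0, h.1, rfl⟩]
        · intro n _ hn
          rw [if_neg]
          rintro ⟨_, _, h'⟩
          exact hn h'.symm
        · intro h'
          exact absurd (Finset.mem_range.mpr h.2) h'
      · rw [if_neg h]
        apply Finset.sum_eq_zero
        intro n hn
        rw [if_neg]
        rintro ⟨_, h1, h2⟩
        apply h
        refine ⟨h1, ?_⟩
        rw [h2]
        exact Finset.mem_range.mp hn
    rw [Finset.sum_congr rfl hstep]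
    have hlog : 3126 / d < 2 ^ (Nat.log2 (3126 / d) + 1) := Nat.lt_log2_self
    -- both sides are sums over the same support
    have hL : ∀ m, d ^ k * (if m = 0 then 0 else if m * d < 3126 then 2 ^ (128 * (m * d)) else 0)
        = if m ≠ 0 ∧ m * d < 3126 then d ^ k * 2 ^ (128 * (m * d)) else 0 := by
      intro m
      by_cases h0 : m = 0
      · simp [h0]
      · by_cases h1 : m * d < 3126
        · simp [h0, h1]
        · simp [h0, h1]
    simp only [hL]
    rw [← Finset.sum_filter, ← Finset.sum_filter]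
    apply Finset.sum_congr
    · ext m
      simp only [Finset.mem_filter, Finset.mem_range]
      constructor
      · rintro ⟨_, h0, h1⟩
        refine ⟨?_, h0, h1⟩
        have : m ≤ m * d := Nat.le_mul_of_pos_right _ (Nat.pos_of_ne_zero hd0)
        have h12 : (2 : ℕ) ^ 12 = 4096 := by norm_num
        omega
      · rintro ⟨_, h0, h1⟩
        refine ⟨?_, h0, h1⟩
        have : m ≤ 3126 / d := (Nat.le_div_iff_mul_le (Nat.pos_of_ne_zero hd0)).mpr h1.le
        exact lt_of_le_of_lt this hlog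
    · intros; rfl

theorem Pre.lamb {k : ℕ} (hk : k ≤ 5) : Pre (ASD.lamb k)
    (PowerSeries.mk fun n => ((ArithmeticFunction.sigma k n : ℕ) : ZMod (5 ^ 15))) (2 ^ 72) := by
  refine ⟨fun n => ArithmeticFunction.sigma k n, ?_, ?_, ?_⟩
  · rw [lamb_eq]
  · intro n hn
    show ArithmeticFunction.sigma k n < 2 ^ 72
    rw [ArithmeticFunction.sigma_apply]
    have h1 : ∑ d ∈ n.divisors, d ^ k ≤ ∑ d ∈ n.divisors, 3126 ^ 5 := by
      apply Finset.sum_le_sum
      intro d hd
      have h2 := Nat.divisor_le hd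
      have hd1 : 0 < d := Nat.pos_of_mem_divisors hd
      calc d ^ k ≤ d ^ 5 := Nat.pow_le_pow_right hd1 hk
        _ ≤ 3126 ^ 5 := Nat.pow_le_pow_left (by omega) 5
    rw [Finset.sum_const, smul_eq_mul] at h1
    have h3 : n.divisors.card ≤ 3126 := (Nat.card_divisors_le_self n).trans hn.le
    calc _ ≤ n.divisors.card * 3126 ^ 5 := h1
      _ ≤ 3126 * 3126 ^ 5 := Nat.mul_le_mul_right _ h3
      _ < 2 ^ 72 := by norm_num
  · intro n _
    rw [PowerSeries.coeff_mk]

end Pool.Agent.Helper13.ASD
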